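import Pool.Agent.Helper70.SK.Stmts
import Pool.Agent.Helper70.SK.Lib
import Pool.Agent.Helper47.DK.E5

/-! Sticky Kakeya sets: module HH, the entropies `hh`. -/

namespace Pool.Agent.Helper70.SK

open Finset Pool.Agent.Helper70.DK

variable {m q : ℕ}

theorem hh_cell_step (σ : Sy m q) (B l : ℕ) (hl : l + 1 ≤ σ.n) (ω : BS m q) (r : Fin q) :
    σ.C B l ω r = σ.C B (l + 1) ω r / (B : ℤ) := by
  have he : σ.e l = σ.e (l + 1) + 1 := by
    unfold Sy.e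
    omega
  unfold Sy.C cl
  rw [he, pow_succ, Int.ediv_ediv_of_nonneg (by positivity)]

/-- the conditional entropy of the next cell -/
theorem hh_incr (σ : Sy m q) (B k l : ℕ) (hl : l + 1 ≤ σ.n) :
    σ.hh B k (l + 1) - σ.hh B k l = cent (σ.Om B) (σ.C B (l + 1))
      (fun ω => (σ.C B l ω, (σ.tr B k ω.1.2, ω.1.1, ω.2))) := by
  have h1 := cent_chain (σ.Om B) (σ.C B l) (σ.C B (l + 1)) (fun ω => (σ.tr B k ω.1.2, ω.1.1, ω.2))
  have h2 := cent_congr_left (σ.Om B) (fun ω => (σ.C B l ω, σ.C B (l + 1) ω)) (σ.C B (l + 1))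
    (fun ω => (σ.tr B k ω.1.2, ω.1.1, ω.2)) (by
      intro x _ y _ _
      constructor
      · intro e
        have e2 : σ.C B l x = σ.C B l y := by
          funext r
          rw [hh_cell_step σ B l hl x r, hh_cell_step σ B l hl y r, e]
        exact Prod.ext e2 e
      · intro e
        exact (Prod.ext_iff.1 e).2)
  unfold Sy.hh
  rw [h2] at h1
  linarith

theorem hh_incr_le (σ : Sy m q) (B k l : ℕ) (hB : 2 ≤ B) (hl : l + 1 ≤ σ.n) :
    σ.hh B k (l + 1) - σ.hh B k l ≤ q * Real.log B := by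
  classical
  rw [hh_incr σ B k l hl]
  have hB0 : (0 : ℤ) < (B : ℤ) := by
    have : 0 < B := by omega
    exact_mod_cast this
  have h := cent_card (σ.Om B) (σ.C B (l + 1)) (fun ω => (σ.C B l ω, (σ.tr B k ω.1.2, ω.1.1, ω.2))) (B ^ q) (by
    intro c
    refine ⟨Fintype.piFinset (fun r => Finset.Ico ((B : ℤ) * c.1 r) ((B : ℤ) * c.1 r + B)), ?_, ?_⟩
    · rw [Fintype.card_piFinset]
      simp
    · intro x _ e
      rw [Fintype.mem_piFinset]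
      intro r
      have e1 : σ.C B l x = c.1 := (Prod.ext_iff.1 e).1
      have e2 : σ.C B l x r = c.1 r := by rw [e1]
      rw [hh_cell_step σ B l hl x r] at e2
      rw [Finset.mem_Ico, ← e2]
      have h3 := Int.emod_nonneg (σ.C B (l + 1) x r) hB0.ne'
      have h4 := Int.emod_lt_of_pos (σ.C B (l + 1) x r) hB0
      have h5 := Int.mul_ediv_add_emod (σ.C B (l + 1) x r) (B : ℤ)
      constructor <;> linarith)
  refine h.trans (le_of_eq ?_)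
  push_cast
  rw [Real.log_pow]

theorem hh_om_mem (σ : Sy m q) (B : ℕ) (ω : BS m q) (h : ω ∈ σ.Om B) :
    ω.1.1 ∈ σ.G ∧ ω.1.2 ∈ σ.X B ∧ ω.2 ∈ σ.U B := by
  unfold Sy.Om Sy.GX at h
  rw [Finset.mem_product, Finset.mem_product] at h
  exact ⟨h.1.1, h.1.2, h.2⟩

theorem hh_tr_zero (σ : Sy m q) (B : ℕ) (x : Fin m → ℤ) (hx : x ∈ σ.X B) : σ.tr B 0 x = fun _ => 0 := by
  funext c
  unfold Sy.X gr at hx
  rw [Fintype.mem_piFinset] at hx
  have h := Finset.mem_Ico.1 (hx c)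
  unfold Sy.tr cl
  refine Int.ediv_eq_zero_of_lt h.1 ?_
  have h2 := h.2
  push_cast at h2
  simpa using h2

/-- average over the heights and the shifts -/
theorem hh_avg (σ : Sy m q) (B L : ℕ) (hB : 2 ≤ B) (hG : σ.G.Nonempty) :
    σ.hh B 0 L = (∑ p ∈ σ.G ×ˢ σ.U B, ent (σ.X B) (fun x => σ.C B L ((p.1, x), p.2))) /
      ((σ.G ×ˢ σ.U B).card : ℝ) := by
  classical
  have hB0 : 0 < B := by omega
  have hU : (σ.U B).Nonempty := by
    refine ⟨fun _ => 0, ?_⟩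
    unfold Sy.U gr
    rw [Fintype.mem_piFinset]
    intro _
    rw [Finset.mem_Ico]
    refine ⟨le_refl _, ?_⟩
    positivity
  have hX : (σ.X B).Nonempty := by
    refine ⟨fun _ => 0, ?_⟩
    unfold Sy.X gr
    rw [Fintype.mem_piFinset]
    intro _
    rw [Finset.mem_Ico]
    refine ⟨le_refl _, ?_⟩
    positivity
  have h4 := st_E5.2.2.2.1 (ℕ × (Fin q → ℤ)) (Fin m → ℤ) (Fin q → ℤ) (σ.G ×ˢ σ.U B) (σ.X B)
    (fun p x => σ.C B L ((p.1, x), p.2)) (hG.product hU) hX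
  have hb : Set.BijOn (fun ω : BS m q => (((ω.1.1, ω.2), ω.1.2) : (ℕ × (Fin q → ℤ)) × (Fin m → ℤ)))
      (σ.Om B : Set (BS m q)) (((σ.G ×ˢ σ.U B) ×ˢ σ.X B : Finset _) : Set _) := by
    refine ⟨?_, ?_, ?_⟩
    · intro ω hω
      have h := hh_om_mem σ B ω hω
      simp only [Finset.coe_product, Set.mem_prod, Finset.mem_coe]
      exact ⟨⟨h.1, h.2.2⟩, h.2.1⟩
    · rintro ⟨⟨a, b⟩, c⟩ _ ⟨⟨a', b'⟩, c'⟩ _ e
      simp only [Prod.mk.injEq] at e
      obtain ⟨⟨e1, e2⟩, e3⟩ := e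
      subst e1 e2 e3
      rfl
    · rintro ⟨⟨a, b⟩, c⟩ h
      simp only [Finset.coe_product, Set.mem_prod, Finset.mem_coe] at h
      refine ⟨((a, c), b), ?_, rfl⟩
      unfold Sy.Om Sy.GX
      simp only [Finset.coe_product, Set.mem_prod, Finset.mem_coe]
      exact ⟨⟨h.1.1, h.2⟩, h.1.2⟩
  have h5a := st_E5.2.2.2.2 (BS m q) ((ℕ × (Fin q → ℤ)) × (Fin m → ℤ)) ((Fin q → ℤ) × (ℕ × (Fin q → ℤ)))
    (σ.Om B) ((σ.G ×ˢ σ.U B) ×ˢ σ.X B) (fun ω => ((ω.1.1, ω.2), ω.1.2))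
    (fun p => (σ.C B L ((p.1.1, p.2), p.1.2), p.1)) hb
  have h5b := st_E5.2.2.2.2 (BS m q) ((ℕ × (Fin q → ℤ)) × (Fin m → ℤ)) (ℕ × (Fin q → ℤ))
    (σ.Om B) ((σ.G ×ˢ σ.U B) ×ˢ σ.X B) (fun ω => ((ω.1.1, ω.2), ω.1.2))
    (fun p => p.1) hb
  have h6 : σ.hh B 0 L = cent (σ.Om B) (σ.C B L) (fun ω => (ω.1.1, ω.2)) := by
    unfold Sy.hh
    refine cent_congr_right (σ.Om B) (σ.C B L) (fun ω => (ω.1.1, ω.2)) (fun ω => (σ.tr B 0 ω.1.2, ω.1.1, ω.2)) ?_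
    intro x hx y hy
    rw [hh_tr_zero σ B x.1.2 (hh_om_mem σ B x hx).2.1, hh_tr_zero σ B y.1.2 (hh_om_mem σ B y hy).2.1]
    simp only [Prod.mk.injEq, true_and]
  rw [h6, ← h4]
  unfold cent
  rw [← h5b]
  congr 1

/-- the shift changes the entropy by a constant -/
theorem hh_shift (h3 : ST_DET) (σ : Sy m q) (B L γ : ℕ) (u : Fin q → ℤ) (hB : 2 ≤ B) :
    ent (σ.X B) (fun x => σ.C B L ((γ, x), u)) ≤ σ.h B γ L + q * Real.log 3 := by
  have hB0 : (0 : ℤ) < (B : ℤ) := by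
    have : 0 < B := by omega
    exact_mod_cast this
  have hs : (0 : ℤ) < (B : ℤ) ^ σ.e L := by positivity
  have h := h3.1 (Fin m → ℤ) Unit q 0 (σ.X B) (fun x => σ.Y B γ x + u) (fun x => σ.Y B γ x) (fun _ => ())
    (fun _ => u) ((B : ℤ) ^ σ.e L) hs (by
      intro x _ r
      simp)
  have e1 : ent (σ.X B) (fun x => σ.C B L ((γ, x), u)) ≤
      ent (σ.X B) (fun x => (fun r => (σ.Y B γ x + u) r / (B : ℤ) ^ σ.e L,
        ((fun r => σ.Y B γ x r / (B : ℤ) ^ σ.e L), ()))) :=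
    ent_le _ _ _ (by
      intro x _ y _ e
      exact (Prod.ext_iff.1 e).1)
  have e2 : ent (σ.X B) (fun x => ((fun r => σ.Y B γ x r / (B : ℤ) ^ σ.e L), ())) ≤ σ.h B γ L :=
    ent_le _ _ _ (by
      intro x _ y _ e
      exact Prod.ext e rfl)
  unfold cent at h
  have h' : ((2 : ℝ) * ((0 : ℕ) : ℝ) + 3) = 3 := by norm_num
  rw [h'] at h
  linarith

theorem st_HH (h1 : ST_GEO) (_h2 : ST_IND) (h3 : ST_DET) : ST_HH := by
  classical
  intro m q B R κ D hB hR hD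
  have hB0 : (0 : ℤ) < (B : ℤ) := by
    have : 0 < B := by omega
    exact_mod_cast this
  have hK3 : (3 : ℝ) ≤ 2 * (⌈(m : ℝ) * D * (R + 1)⌉₊ : ℝ) + 3 := by
    have : (0 : ℝ) ≤ (⌈(m : ℝ) * D * (R + 1)⌉₊ : ℝ) := by positivity
    linarith
  have hlog3 : Real.log 3 ≤ Real.log (2 * (⌈(m : ℝ) * D * (R + 1)⌉₊ : ℝ) + 3) :=
    Real.log_le_log (by norm_num) hK3
  have hlog0 : 0 ≤ Real.log 3 := Real.log_nonneg (by norm_num)
  have hq0 : (0 : ℝ) ≤ (q : ℝ) := by positivity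
  refine ⟨q * Real.log (2 * (⌈(m : ℝ) * D * (R + 1)⌉₊ : ℝ) + 3), mul_nonneg hq0 (hlog0.trans hlog3), ?_⟩
  intro σ C hok
  obtain ⟨g1, _, g3, g4⟩ := h1 m q B R κ D C σ hB hR hD hok
  have htr : ∀ k k', k ≤ k' → k' ≤ σ.n → ∀ x y : Fin m → ℤ, σ.tr B k' x = σ.tr B k' y → σ.tr B k x = σ.tr B k y := by
    intro k k' hk hk' x y e
    rw [g4 k k' hk hk' x, g4 k k' hk hk' y, e]
  refine ⟨?_, ?_, ?_, ?_, ?_, ?_⟩
  · intro k l
    exact cent_nonneg _ _ _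
  · intro k l hl
    constructor
    · have := hh_incr σ B k l hl
      have h0 : 0 ≤ σ.hh B k (l + 1) - σ.hh B k l := by
        rw [this]
        exact cent_nonneg _ _ _
      linarith
    · have := hh_incr_le σ B k l hB hl
      linarith
  · intro k k' l hk hk' hl
    rw [hh_incr σ B k l hl, hh_incr σ B k' l hl]
    refine cent_mono_right _ _ _ _ ?_
    intro x _ y _ e
    simp only [Prod.mk.injEq] at e ⊢
    exact ⟨e.1, htr k k' hk hk' _ _ e.2.1, e.2.2.1, e.2.2.2⟩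
  · intro k k' l hk hk'
    unfold Sy.hh
    refine cent_mono_right _ _ _ _ ?_
    intro x _ y _ e
    simp only [Prod.mk.injEq] at e ⊢
    exact ⟨htr k k' hk hk' _ _ e.1, e.2.1, e.2.2⟩
  · intro k hk
    have h := h3.2.2 (BS m q) ((Fin m → ℤ) × ℕ × (Fin q → ℤ)) q ⌈(m : ℝ) * D * (R + 1)⌉₊ (σ.Om B)
      (fun ω => σ.Y B ω.1.1 ω.1.2 + ω.2) (fun ω => (σ.tr B k ω.1.2, ω.1.1, ω.2))
      (fun z => σ.Y B z.2.1 (fun c => (B : ℤ) ^ (σ.n - k) * z.1 c) + z.2.2) ((B : ℤ) ^ σ.e k) (by positivity) (by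
        intro ω hω r
        obtain ⟨m1, m2, _⟩ := hh_om_mem σ B ω hω
        obtain ⟨c1, c2, _⟩ := g3 k hk ω.1.2 m2
        have b1 := g1 ω.1.1 m1 k hk ω.1.2 m2 (σ.co B k ω.1.2) c1 c2.symm r
        have b2 : (m : ℝ) * D * (R + 1) * (B : ℝ) ^ σ.e k ≤
            (⌈(m : ℝ) * D * (R + 1)⌉₊ : ℝ) * (B : ℝ) ^ σ.e k :=
          mul_le_mul_of_nonneg_right (Nat.le_ceil _) (by positivity)
        have b3 := b1.trans b2
        have b4 : (σ.Y B ω.1.1 ω.1.2 + ω.2) r -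
            (σ.Y B ω.1.1 (fun c => (B : ℤ) ^ (σ.n - k) * σ.tr B k ω.1.2 c) + ω.2) r =
            σ.Y B ω.1.1 ω.1.2 r - σ.Y B ω.1.1 (σ.co B k ω.1.2) r := by
          simp only [Pi.add_apply]
          unfold Sy.co
          ring
        show |(σ.Y B ω.1.1 ω.1.2 + ω.2) r -
            (σ.Y B ω.1.1 (fun c => (B : ℤ) ^ (σ.n - k) * σ.tr B k ω.1.2 c) + ω.2) r| ≤ _
        rw [b4]
        have b5 : ((|σ.Y B ω.1.1 ω.1.2 r - σ.Y B ω.1.1 (σ.co B k ω.1.2) r| : ℤ) : ℝ) ≤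
            (((⌈(m : ℝ) * D * (R + 1)⌉₊ : ℤ) * (B : ℤ) ^ σ.e k : ℤ) : ℝ) := by
          push_cast
          exact b3
        exact_mod_cast b5)
    exact h
  · intro L _
    rw [hh_avg σ B L hB hok.ne]
    have hU : (σ.U B).Nonempty := by
      refine ⟨fun _ => 0, ?_⟩
      unfold Sy.U gr
      rw [Fintype.mem_piFinset]
      intro _
      rw [Finset.mem_Ico]
      refine ⟨le_refl _, ?_⟩
      have : 0 < B := by omega
      positivity
    have hGc : (0 : ℝ) < (σ.G.card : ℝ) := by exact_mod_cast hok.ne.card_pos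
    have hUc : (0 : ℝ) < ((σ.U B).card : ℝ) := by exact_mod_cast hU.card_pos
    have hsum : ∑ p ∈ σ.G ×ˢ σ.U B, ent (σ.X B) (fun x => σ.C B L ((p.1, x), p.2)) ≤
        ((σ.U B).card : ℝ) * ((∑ γ ∈ σ.G, σ.h B γ L) + σ.G.card * (q * Real.log 3)) := by
      calc ∑ p ∈ σ.G ×ˢ σ.U B, ent (σ.X B) (fun x => σ.C B L ((p.1, x), p.2))
          ≤ ∑ p ∈ σ.G ×ˢ σ.U B, (σ.h B p.1 L + q * Real.log 3) :=
            Finset.sum_le_sum fun p _ => hh_shift h3 σ B L p.1 p.2 hB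
        _ = ((σ.U B).card : ℝ) * ((∑ γ ∈ σ.G, σ.h B γ L) + σ.G.card * (q * Real.log 3)) := by
            rw [Finset.sum_product]
            simp only [Finset.sum_const, nsmul_eq_mul]
            rw [← Finset.mul_sum, Finset.sum_add_distrib]
            simp only [Finset.sum_const, nsmul_eq_mul]
    rw [Finset.card_product]
    push_cast
    have e1 : (σ.G.card : ℝ) * ((∑ p ∈ σ.G ×ˢ σ.U B, ent (σ.X B) (fun x => σ.C B L ((p.1, x), p.2))) /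
        ((σ.G.card : ℝ) * ((σ.U B).card : ℝ))) =
        (∑ p ∈ σ.G ×ˢ σ.U B, ent (σ.X B) (fun x => σ.C B L ((p.1, x), p.2))) / ((σ.U B).card : ℝ) := by
      field_simp
    rw [e1, div_le_iff₀ hUc]
    refine hsum.trans ?_
    have e2 : (σ.G.card : ℝ) * (q * Real.log 3) ≤
        σ.G.card * (q * Real.log (2 * (⌈(m : ℝ) * D * (R + 1)⌉₊ : ℝ) + 3)) :=
      mul_le_mul_of_nonneg_left (mul_le_mul_of_nonneg_left hlog3 hq0) hGc.le
    have e3 : (∑ γ ∈ σ.G, σ.h B γ L) + σ.G.card * (q * Real.log 3) ≤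
        (∑ γ ∈ σ.G, σ.h B γ L) + σ.G.card * (q * Real.log (2 * (⌈(m : ℝ) * D * (R + 1)⌉₊ : ℝ) + 3)) := by
      linarith
    have e4 := mul_le_mul_of_nonneg_left e3 hUc.le
    rw [mul_comm ((∑ γ ∈ σ.G, σ.h B γ L) + _) _]
    exact e4

end Pool.Agent.Helper70.SK
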